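import Pool.Agent.H54.HDS.TDAa

/-! MP_ee74d2_an, theorem HD, row TDA: the numbers of the two-ends case. -/

set_option autoImplicit false

namespace Pool.Agent.H54.HDS

open MeasureTheory Set
open Pool.Agent.H83.G Pool.Agent.H83.G.TEN Pool.Agent.H82.HD
open Pool.Agent.H22.G (co)
open scoped ENNReal NNReal RealInnerProductSpace

/-- choice of the constant -/
theorem tda_consts (C₁ C₂ C₅ C₆ C₇ C₉ Cb : ℝ) (h1 : 1 ≤ C₁) (h2 : 1 ≤ C₂) (h5 : 1 ≤ C₅)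
    (h6 : 1 ≤ C₆) (h7 : 0 < C₇) (h9 : 1 ≤ C₉) (hb : 1 ≤ Cb) :
    ∃ C : ℝ, 1 ≤ C ∧ 2 ≤ C ∧ C₁ ≤ C ∧ C₂ ≤ C ∧ C₅ ≤ C ∧ C₇ / 1 < C ∧ C₉ ^ 2 ≤ C ∧ Cb ≤ C ∧
      2 * C₁ * C₆ ≤ C := by
  refine ⟨2 + C₁ + C₂ + C₅ + C₇ + C₉ ^ 2 + Cb + 2 * C₁ * C₆, ?_⟩
  have a1 : 0 ≤ C₉ ^ 2 := sq_nonneg _
  have a2 : 0 ≤ 2 * C₁ * C₆ := by positivity
  generalize C₉ ^ 2 = x at a1 ⊢
  generalize 2 * C₁ * C₆ = y at a2 ⊢
  rw [div_one]
  refine ⟨?_, ?_, ?_, ?_, ?_, ?_, ?_, ?_, ?_⟩ <;> linarith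

/-- the number of classes is at most `R ^ δ` -/
theorem tda_cls (C C₉ R δ nn x y : ℝ) (hR1 : 1 ≤ R) (h9 : 1 ≤ C₉) (hC : C₉ ^ 2 ≤ C)
    (hCR : C ≤ R ^ δ) (hy : 0 ≤ y) (hn : nn ≤ C₉ * R ^ (δ / 2)) (hx : x ≤ nn * y) :
    x ≤ R ^ δ * y := by
  have hR0 : 0 < R := by linarith
  have e1 : R ^ δ = R ^ (δ / 2) * R ^ (δ / 2) := by
    rw [← Real.rpow_add hR0]; congr 1; ring
  have hp : 0 < R ^ (δ / 2) := Real.rpow_pos_of_pos hR0 _
  have e2 : C₉ ≤ R ^ (δ / 2) := by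
    have e3 : C₉ ^ 2 ≤ (R ^ (δ / 2)) ^ 2 := by
      rw [sq (R ^ (δ / 2)), ← e1]; exact hC.trans hCR
    exact le_of_sq_le_sq e3 hp.le
  refine hx.trans (mul_le_mul_of_nonneg_right ?_ hy)
  refine hn.trans ?_
  rw [e1]
  exact mul_le_mul_of_nonneg_right e2 hp.le

/-- the exponents -/
theorem tda_exp (m : ℕ) (δ ε₀ : ℝ) (hδ : 0 < δ) (hε : 0 < ε₀) :
    4 * lo m * (δ + ε₀) + ((m : ℝ) + 2) * δ ≤ 10 * lo m * (δ + ε₀) ∧
    2 * lo m * δ ≤ 10 * lo m * (δ + ε₀) ∧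
    2 * ((m : ℝ) + 1) * δ ≤ 10 * lo m * (δ + ε₀) ∧
    2 * δ ≤ 10 * lo m * (δ + ε₀) ∧
    6 * ((m : ℝ) + 2) * (δ + ε₀) ≤ 10 * lo m * (δ + ε₀) := by
  have hlo : lo m = 100 * ((m : ℝ) + 2) := rfl
  have a1 : 0 ≤ (m : ℝ) * δ := by positivity
  have a2 : 0 ≤ (m : ℝ) * ε₀ := by positivity
  rw [hlo]
  refine ⟨?_, ?_, ?_, ?_, ?_⟩ <;> linarith

theorem one_le_mul' {x y : ℝ} (hx : 1 ≤ x) (hy : 1 ≤ y) : 1 ≤ x * y := by nlinarith

open Classical in
theorem pf_TDA (hPG4 : Pool.Agent.H22.G.T_PG4) (hHG2 : Pool.Agent.H22.G.T_HG2)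
    (hMU : Pool.Agent.H22.G.T_MU) (hBUS : T_BUS) (hCBN : T_CBN) (hTE1 : T_TE1) (hTE2 : T_TE2)
    (hTLS : T_TLS) (hAMU : T_AMU) (hPUS : T_PUS) : T_TDA := by
  intro m L β Ψ ψ δ ε₀ B hm hβ hΨ hδ hδ' hε hε' hB
  have hm1 : 1 ≤ m := by omega
  have hm4 : (4 : ℝ) ≤ m := by exact_mod_cast hm
  obtain ⟨N₁, hN₁⟩ := hTE1 m L β Ψ ψ δ ε₀ B hm hβ hΨ hδ hδ' hε hε' hB
  refine ⟨max N₁ (m + 3), fun N hN => ?_⟩
  have hNm : m + 3 ≤ N := (le_max_right _ _).trans hN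
  obtain ⟨C₁, hC₁, h1⟩ := hN₁ N ((le_max_left _ _).trans hN)
  obtain ⟨C₂, hC₂, h2⟩ := hTE2 m L β Ψ ψ δ 1 B hm1 hβ hΨ hδ hδ' one_pos hB N hNm
  obtain ⟨C₅, hC₅, h5⟩ := hMU m
  obtain ⟨C₆, hC₆, h6⟩ := hHG2 m
  obtain ⟨C₇, hC₇, h7⟩ := hTLS m L N β Ψ ψ δ 1 hβ hΨ hδ (by linarith) hNm
  obtain ⟨C₉, hC₉, h9⟩ := logn (2 * ((m : ℝ) + 2)) B (δ / 2) (by positivity) hB (by linarith) 1
  obtain ⟨Cb, hCb, hbus⟩ := hBUS m
  obtain ⟨hcb, hinc, C₀, hC₀, -, -⟩ := hCBN m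
  obtain ⟨C, hC1, hC2, g1, g2, g5, g7, g9, gb, g16⟩ :=
    tda_consts C₁ C₂ C₅ C₆ C₇ C₉ Cb hC₁ hC₂ hC₅ hC₆ hC₇ hC₉ hCb
  refine ⟨C, hC1, ?_⟩
  intro κ R A H a b G z₀ S l k QQ ν X hκ0 hκ hR1 hCR hA hH hAH hG hX hXne hXz hS
    hScard ha hb1 hb hν hνQ hνX hXQ hQz hk hXF
  have hR0 : 0 < R := lt_of_lt_of_le one_pos hR1
  have hRδ : 1 ≤ R ^ δ := hC1.trans hCR
  have hκ' : κ ≤ 1 / 2 := hκ.trans (by norm_num)
  obtain ⟨x1, x2, x3, x4, x5⟩ := tda_exp m δ ε₀ hδ hε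
  have hC0 : 0 ≤ C := by linarith
  have e9 : C₇ / 1 < R ^ δ := g7.trans_le hCR
  have hAH' : 1 * A ≤ R ^ δ * H := by rw [one_mul]; exact hAH
  obtain ⟨n, hn1, hn2⟩ := h9 R hR1
  rw [pow_one] at hn2
  have hSn : S.card ≤ 2 ^ n := by
    have := hScard.trans hn1
    exact_mod_cast this
  have hnear : ∀ (z : Z m) (W : Pk m), near R δ W z → Inc R δ (tb R W) (cb (Real.sqrt R) z) :=
    fun z W hW => hinc R δ W z hR1 hδ.le hW
  set r : ℝ := R ^ (1 - ε₀) with hr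
  -- the number of tubes at a point
  set P : Zi m → Pk m → Prop := fun q T => Inc R δ T q ∧ Sh QQ R r δ l k T (bl R r q) with hP
  set v : Z m → ℕ := fun z => ((S.image (tb R)).filter (P (cb (Real.sqrt R) z))).card with hv
  have hv1 : ∀ z ∈ X, 1 ≤ v z := by
    intro z hz
    refine tubes_pos S QQ R r δ l k z _ (hnear z) ?_
    refine near_pos one_pos hA hR1 hδ' hC₇ hAH' e9 _ z ?_ (hXF z hz)
    exact (h7 κ R A G _ z hκ0 hκ' hR1 hA hG (fun W hW => (hS W (mem_SB.1 hW).1).1)).1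
  obtain ⟨X', M, hX', hM1, hXc, hXM⟩ := hPG4 (Z m) X v n (fun z hz => ⟨hv1 z hz, by
      refine le_trans (Finset.card_le_card (Finset.filter_subset _ _)) ?_
      exact Finset.card_image_le.trans hSn⟩)
  have hX'0 : X'.Nonempty := by
    rw [Finset.nonempty_iff_ne_empty]
    intro h0
    rw [h0, Finset.card_empty, mul_zero] at hXc
    exact absurd hXc (by have := hXne.card_pos; omega)
  obtain ⟨z₁, hz₁⟩ := hX'0
  have hXc' : (X.card : ℝ) ≤ R ^ δ * X'.card := by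
    refine tda_cls C C₉ R δ ((n : ℝ) + 1) _ _ hR1 hC₉ g9 hCR (by positivity) hn2 ?_
    exact_mod_cast hXc
  have hM1' : (1 : ℝ) ≤ (M : ℝ) := by exact_mod_cast hM1
  -- the planks in the shading class
  obtain ⟨S₁, hS₁⟩ : ∃ S₁ : Finset (Pk m),
      S₁ = S.filter (fun W => ∃ B', Sh QQ R r δ l k (tb R W) B') := ⟨_, rfl⟩
  have hS₁S : S₁ ⊆ S := by rw [hS₁]; exact Finset.filter_subset _ _
  have hSB : ∀ B', SB QQ R r δ l k S B' = SB QQ R r δ l k S₁ B' := by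
    intro B'
    ext W
    rw [mem_SB, mem_SB, hS₁, Finset.mem_filter]
    constructor
    · rintro ⟨a1, a2⟩; exact ⟨⟨a1, B', a2⟩, a2⟩
    · rintro ⟨⟨a1, -⟩, a2⟩; exact ⟨a1, a2⟩
  have hIm : ∀ q, (S.image (tb R)).filter (P q) = (S₁.image (tb R)).filter (P q) := by
    intro q
    ext T
    rw [Finset.mem_filter, Finset.mem_filter, Finset.mem_image, Finset.mem_image]
    constructor
    · rintro ⟨⟨W, hW, rfl⟩, a2⟩
      refine ⟨⟨W, ?_, rfl⟩, a2⟩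
      rw [hS₁, Finset.mem_filter]
      exact ⟨hW, _, a2.2⟩
    · rintro ⟨⟨W, hW, rfl⟩, a2⟩
      exact ⟨⟨W, hS₁S hW, rfl⟩, a2⟩
  have hvM : ∀ z ∈ X', (M : ℝ) ≤ (((S₁.image (tb R)).filter (P (cb (Real.sqrt R) z))).card : ℝ) ∧
      (((S₁.image (tb R)).filter (P (cb (Real.sqrt R) z))).card : ℝ) ≤ 2 * (M : ℝ) := by
    intro z hz
    rw [← hIm]
    have := hXM z hz
    exact ⟨by exact_mod_cast this.1, by exact_mod_cast this.2.le⟩
  have hctr : ∀ T ∈ S₁.image (tb R), ‖ctr (sR R) T.1‖ ≤ 3 := by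
    intro T hT
    obtain ⟨W, hW, rfl⟩ := Finset.mem_image.1 hT
    exact (hS W (hS₁S hW)).2.1
  have hS₁c : (S₁.card : ℝ) ≤ B * R ^ (2 * ((m : ℝ) + 2)) := by
    refine le_trans ?_ hScard
    exact_mod_cast Finset.card_le_card hS₁S
  have hfib : ∀ W ∈ S₁, ((S₁.filter (fun W' => tb R W' = tb R W)).card : ℝ) ≤ 2 * b := by
    intro W hW
    refine le_trans ?_ (hb W (hS₁S hW)).2
    exact_mod_cast Finset.card_le_card (Finset.filter_subset_filter _ hS₁S)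
  have hX'sep : Sep X' := fun z hz z' hz' => hX z (hX' hz) z' (hX' hz')
  have hXF' : ∀ z ∈ X', H ≤ ‖∑ W ∈ SB QQ R r δ l k S₁ (bl R r (cb (Real.sqrt R) z)),
      Fp β ψ R δ G W z‖ := by
    intro z hz
    rw [← hSB]
    exact hXF z (hX' hz)
  have hlow : ∀ T ∈ S₁.image (tb R),
      (2 : ℝ) ^ (l + k) ≤ ((QQ.filter (fun q => Inc R δ T q)).card : ℝ) := by
    intro T hT
    obtain ⟨W, hW, rfl⟩ := Finset.mem_image.1 hT
    rw [hS₁, Finset.mem_filter] at hW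
    obtain ⟨B', hB'⟩ := hW.2
    exact_mod_cast cubes_lower QQ R r δ l k (tb R W) B' hB'
  -- numbers
  set D : ℝ := C₆ * R ^ (((m : ℝ) + 2) * δ) with hD
  have hD1 : 1 ≤ D := by
    have : 1 ≤ R ^ (((m : ℝ) + 2) * δ) := Real.one_le_rpow hR1 (by positivity)
    rw [hD]; exact one_le_mul' hC₆ this
  set Lam : ℝ := C * R ^ (10 * lo m * (δ + ε₀)) with hLam
  have hde : 0 < δ + ε₀ := by linarith
  have hLam0 : 0 ≤ Lam := by positivity
  obtain ⟨T₁, hT₁⟩ : ∃ T, T ∈ (S₁.image (tb R)).filter (P (cb (Real.sqrt R) z₁)) := by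
    have a1 := (hvM z₁ hz₁).1
    have a2 : (0 : ℝ) < (((S₁.image (tb R)).filter (P (cb (Real.sqrt R) z₁))).card : ℝ) := by
      linarith
    have a3 : 0 < ((S₁.image (tb R)).filter (P (cb (Real.sqrt R) z₁))).card := by
      exact_mod_cast a2
    exact Finset.card_pos.1 a3
  have hT₁' : T₁ ∈ S₁.image (tb R) := (Finset.mem_filter.1 hT₁).1
  refine ⟨S₁, X'.card, (X'.image (cb (Real.sqrt R))).card, M, ((S₁.image (tb R)).card : ℝ), Lam,
    hS₁S, rfl, rfl, ?_, hM1', ?_, hXc', ?_, ?_, ?_, ?_, ?_, ?_, ?_, ?_⟩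
  · intro W hW
    refine ⟨hlow _ (Finset.mem_image_of_mem _ hW), ?_⟩
    intro W' hW'
    rw [Finset.mem_filter] at hW'
    rw [hS₁, Finset.mem_filter] at hW ⊢
    obtain ⟨B', hB'⟩ := hW.2
    refine ⟨hW'.1, B', ?_⟩
    rw [hW'.2]; exact hB'
  · have : 0 < (X'.image (cb (Real.sqrt R))).card :=
      Finset.card_pos.2 ⟨_, Finset.mem_image_of_mem _ hz₁⟩
    exact_mod_cast this
  · -- refined decoupling
    have hM₁ : 1 ≤ (M : ℝ) * D := one_le_mul' hM1' hD1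
    have key := h1 κ R A H a (M * D) G z₀ S₁ QQ l k X' hκ0 hκ hR1 (g1.trans hCR) hA hH
      ha hM₁ hG hX'sep (fun z hz => hXz z (hX' hz))
      (fun W hW => ⟨(hS W (hS₁S hW)).1, (hS W (hS₁S hW)).2.2.2⟩) hS₁c
      (fun z hz => hXQ z (hX' hz)) hQz
      (fun z hz => by
        have a1 := count_near S₁ QQ R r δ l k z
          (bl R r (cb (Real.sqrt R) z)) D (by linarith)
          (hnear z) (fun k' S' hS' => (h6 R δ hR1 hδ.le).1 k' z S' hS')
        refine a1.trans ?_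
        have a2 := mul_le_mul_of_nonneg_right (hvM z hz).2 (by linarith : (0:ℝ) ≤ D)
        refine le_trans a2 (le_of_eq ?_)
        ring)
      hXF'
    refine key.trans ?_
    have b1 : (S₁.card : ℝ) ≤ ((S₁.image (tb R)).card : ℝ) * (2 * b) :=
      card_tb' S₁ (tb R) (2 * b) hfib
    have b2 : ((M : ℝ) * D) ^ (2 / (m : ℝ)) ≤ (M : ℝ) ^ (2 / (m : ℝ)) * D := by
      rw [Real.mul_rpow (by linarith) (by linarith)]
      refine mul_le_mul_of_nonneg_left ?_ (by positivity)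
      have : (2 : ℝ) / m ≤ 1 := by rw [div_le_one (by linarith)]; linarith
      calc D ^ (2 / (m : ℝ)) ≤ D ^ (1 : ℝ) := Real.rpow_le_rpow_of_exponent_le hD1 this
        _ = D := Real.rpow_one _
    have b3 : 2 * C₁ * C₆ * R ^ (4 * lo m * (δ + ε₀) + ((m : ℝ) + 2) * δ) ≤ Lam :=
      lossle hR1 (by positivity) g16 x1
    have b4 : R ^ (4 * lo m * (δ + ε₀) + ((m : ℝ) + 2) * δ) =
        R ^ (4 * lo m * (δ + ε₀)) * R ^ (((m : ℝ) + 2) * δ) := Real.rpow_add hR0 _ _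
    calc C₁ * R ^ (4 * lo m * (δ + ε₀)) * (M * D) ^ (2 / (m : ℝ)) *
          a ^ (2 * ((m : ℝ) + 2) / m) * S₁.card * R ^ (((m : ℝ) + 2) / 2)
        ≤ C₁ * R ^ (4 * lo m * (δ + ε₀)) * ((M : ℝ) ^ (2 / (m : ℝ)) * D) *
          a ^ (2 * ((m : ℝ) + 2) / m) * (((S₁.image (tb R)).card : ℝ) * (2 * b)) *
            R ^ (((m : ℝ) + 2) / 2) := by
          gcongr
      _ = (2 * C₁ * C₆ * (R ^ (4 * lo m * (δ + ε₀)) * R ^ (((m : ℝ) + 2) * δ))) *
          ((M : ℝ) ^ (2 / (m : ℝ)) * a ^ (2 * ((m : ℝ) + 2) / m) *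
            (((S₁.image (tb R)).card : ℝ) * b) * R ^ (((m : ℝ) + 2) / 2)) := by
          rw [hD]; ring
      _ ≤ Lam * ((M : ℝ) ^ (2 / (m : ℝ)) * a ^ (2 * ((m : ℝ) + 2) / m) *
            (((S₁.image (tb R)).card : ℝ) * b) * R ^ (((m : ℝ) + 2) / 2)) := by
          rw [b4] at b3
          refine mul_le_mul_of_nonneg_right b3 ?_
          positivity
      _ = _ := by ring
  · -- local energy
    have key := h2 κ R r A H a b M G S₁ QQ l k X' hκ0 hκ hR1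
      (g2.trans hCR) hA hH hAH' ha hb1 (by linarith) hG
      hX'sep (fun W hW => ⟨(hS W (hS₁S hW)).1, (hS W (hS₁S hW)).2.2.2⟩) hS₁c
      hfib (fun z hz => (hvM z hz).2) hXF'
    refine key.trans ?_
    have b3 : C₂ * R ^ (2 * lo m * δ) ≤ Lam := lossle hR1 (by linarith) g2 x2
    gcongr
  · -- incidences
    have key := dbl (S₁.image (tb R)) (X'.image (cb (Real.sqrt R))) (fun T q => P q T) (M : ℝ)
      (4 * 2 ^ (l + k)) ?_ ?_
    · refine key.trans (le_of_eq ?_)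
      ring
    · intro q hq
      obtain ⟨z, hz, rfl⟩ := Finset.mem_image.1 hq
      convert (hvM z hz).1
    · intro T _
      have a1 : (X'.image (cb (Real.sqrt R))).filter (fun q => P q T) ⊆
          QQ.filter (fun q => Inc R δ T q ∧ Sh QQ R r δ l k T (bl R r q)) := by
        intro q hq
        rw [Finset.mem_filter] at hq ⊢
        obtain ⟨z, hz, rfl⟩ := Finset.mem_image.1 hq.1
        exact ⟨hXQ z (hX' hz), hq.2⟩
      have a2 := (Finset.card_le_card a1).trans (cubes_upper QQ R r δ l k T)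
      have a3 : (((X'.image (cb (Real.sqrt R))).filter (fun q => P q T)).card : ℝ) ≤
          4 * 2 ^ (l + k) := by exact_mod_cast a2
      convert a3
  · -- cubes on a tube
    have key := h5 R δ M z₀ (S₁.image (tb R)) (X'.image (cb (Real.sqrt R)))
      (fun T q => Sh QQ R r δ l k T (bl R r q)) hR1 hδ.le hctr ?_ ?_
    · refine key.trans ?_
      have b3 : C₅ * R ^ (2 * ((m : ℝ) + 1) * δ) ≤ Lam := lossle hR1 (by linarith) g5 x3
      have f2 : R ^ (1 / 2 + 2 * ((m : ℝ) + 1) * δ) =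
          R ^ (2 * ((m : ℝ) + 1) * δ) * Real.sqrt R := by
        rw [Real.sqrt_eq_rpow, ← Real.rpow_add hR0]; congr 1; ring
      calc C₅ * R ^ (1 / 2 + 2 * ((m : ℝ) + 1) * δ) * ((S₁.image (tb R)).card : ℝ)
          = (C₅ * R ^ (2 * ((m : ℝ) + 1) * δ)) * (Real.sqrt R * (S₁.image (tb R)).card) := by
            rw [f2]; ring
        _ ≤ Lam * (Real.sqrt R * (S₁.image (tb R)).card) :=
            mul_le_mul_of_nonneg_right b3 (by positivity)
        _ = _ := by ring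
    · intro q hq
      obtain ⟨z, hz, rfl⟩ := Finset.mem_image.1 hq
      exact hQz _ (hXQ z (hX' hz))
    · intro q hq
      obtain ⟨z, hz, rfl⟩ := Finset.mem_image.1 hq
      exact (hvM z hz).1
  · -- all cubes
    have a1 : (X'.card : ℝ) ≤ (X'.image (cb (Real.sqrt R))).card * (2 * ν) := by
      refine card_tb' X' (cb (Real.sqrt R)) (2 * ν) (fun z hz => ?_)
      refine le_trans ?_ (hνX (cb (Real.sqrt R) z))
      have : (X'.filter (fun z' => cb (Real.sqrt R) z' = cb (Real.sqrt R) z)) ⊆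
        X.filter (fun z' => cb (Real.sqrt R) z' = cb (Real.sqrt R) z) :=
        Finset.filter_subset_filter _ hX'
      have b1 := Finset.card_le_card this
      have b2 : ((X'.filter (fun z' => cb (Real.sqrt R) z' = cb (Real.sqrt R) z)).card : ℝ) ≤
        ((X.filter (fun z' => cb (Real.sqrt R) z' = cb (Real.sqrt R) z)).card : ℝ) := by
        exact_mod_cast b1
      convert b2
    have a2 : ν * QQ.card ≤ ν * (2 * R ^ (2 * δ) * (X'.image (cb (Real.sqrt R))).card) := by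
      calc ν * QQ.card ≤ R ^ δ * X.card := hνQ
        _ ≤ R ^ δ * (R ^ δ * X'.card) := by gcongr
        _ ≤ R ^ δ * (R ^ δ * ((X'.image (cb (Real.sqrt R))).card * (2 * ν))) := by gcongr
        _ = ν * (2 * (R ^ δ * R ^ δ) * (X'.image (cb (Real.sqrt R))).card) := by ring
        _ = _ := by rw [← Real.rpow_add hR0, two_mul δ]
    have a3 := le_of_mul_le_mul_left a2 hν
    have b3 : 2 * R ^ (2 * δ) ≤ Lam := lossle hR1 (by norm_num) hC2 x4
    exact a3.trans (mul_le_mul_of_nonneg_right b3 (by positivity))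
  · -- bush
    have key := hbus R δ ε₀ ((S₁.image (tb R)).filter (P (cb (Real.sqrt R) z₁))) QQ
      (cb (Real.sqrt R) z₁) l k hR1 hδ.le hε.le (by linarith) (fun Tu hTu => by
        rw [Finset.mem_filter] at hTu
        exact ⟨hctr _ hTu.1, hTu.2.1, hTu.2.2.2.2.1⟩) (gb.trans hk)
    have b3 : Cb * R ^ (6 * ((m : ℝ) + 2) * (δ + ε₀)) ≤ Lam := lossle hR1 (by linarith) gb x5
    calc (M : ℝ) * 2 ^ (l + k)
        ≤ (((S₁.image (tb R)).filter (P (cb (Real.sqrt R) z₁))).card : ℝ) * 2 ^ (l + k) :=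
          mul_le_mul_of_nonneg_right (hvM z₁ hz₁).1 (by positivity)
      _ ≤ Cb * R ^ (6 * ((m : ℝ) + 2) * (δ + ε₀)) * QQ.card := key
      _ ≤ Lam * QQ.card := mul_le_mul_of_nonneg_right b3 (by positivity)
  · -- one tube
    have key := h5 R δ 1 z₀ {T₁} (QQ.filter (fun q => Inc R δ T₁ q)) (fun _ _ => True) hR1 hδ.le
      (fun T hT => by
        rw [Finset.mem_singleton] at hT
        rw [hT]; exact hctr _ hT₁')
      (fun q hq => hQz q (Finset.mem_filter.1 hq).1)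
      (fun q hq => by
        have a1 : ({T₁} : Finset (Pk m)).filter (fun T => Inc R δ T q ∧ True) = {T₁} := by
          ext T
          rw [Finset.mem_filter, Finset.mem_singleton]
          constructor
          · exact fun h => h.1
          · intro h
            rw [h]
            exact ⟨rfl, (Finset.mem_filter.1 hq).2, trivial⟩
        have a2 : (1 : ℝ) ≤ ((({T₁} : Finset (Pk m)).filter
            (fun T => Inc R δ T q ∧ True)).card : ℝ) := by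
          rw [a1, Finset.card_singleton, Nat.cast_one]
        convert a2)
    rw [mul_one, Finset.card_singleton, Nat.cast_one, mul_one] at key
    refine (hlow T₁ hT₁').trans (key.trans ?_)
    have b3 : C₅ * R ^ (2 * ((m : ℝ) + 1) * δ) ≤ Lam := lossle hR1 (by linarith) g5 x3
    have f2 : R ^ (1 / 2 + 2 * ((m : ℝ) + 1) * δ) =
        R ^ (2 * ((m : ℝ) + 1) * δ) * Real.sqrt R := by
      rw [Real.sqrt_eq_rpow, ← Real.rpow_add hR0]; congr 1; ring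
    rw [f2, ← mul_assoc]
    exact mul_le_mul_of_nonneg_right b3 (Real.sqrt_nonneg _)
  · refine (hvM z₁ hz₁).1.trans ?_
    exact_mod_cast Finset.card_le_card (Finset.filter_subset _ _)

end Pool.Agent.H54.HDS
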