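import Pool.Agent.H82.HD.TR
import Pool.Agent.H83.G.TenB

/-! MP_ee74d2_an, theorem HD, row TDA: combinatorial lemmas. -/

set_option autoImplicit false

namespace Pool.Agent.H54.HDS

open Pool.Agent.H83.G Pool.Agent.H83.G.TEN

open Classical in
/-- a tube in a shading class has many cubes -/
theorem cubes_lower {m : ℕ} (QQ : Finset (Zi m)) (R r δ : ℝ) (l k : ℕ) (T : Pk m) (B : Zi m)
    (h : Sh QQ R r δ l k T B) :
    2 ^ (l + k) ≤ (QQ.filter (fun q => Inc R δ T q)).card := by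
  obtain ⟨-, h1, -⟩ := sh_counts QQ R r δ l k T B h
  set F := (QQ.image (bl R r)).filter (fun B' => Sh QQ R r δ l k T B') with hF
  have h2 : (F.biUnion (fun B' => QQ.filter (fun q => bl R r q = B' ∧ Inc R δ T q))).card =
      ∑ B' ∈ F, (QQ.filter (fun q => bl R r q = B' ∧ Inc R δ T q)).card := by
    refine Finset.card_biUnion ?_
    intro x _ y _ hxy
    rw [Function.onFun, Finset.disjoint_left]
    intro q hq hq'
    rw [Finset.mem_filter] at hq hq'
    exact hxy (hq.2.1.symm.trans hq'.2.1)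
  have h3 : F.biUnion (fun B' => QQ.filter (fun q => bl R r q = B' ∧ Inc R δ T q)) ⊆
      QQ.filter (fun q => Inc R δ T q) := by
    intro q hq
    obtain ⟨B', -, hq'⟩ := Finset.mem_biUnion.1 hq
    rw [Finset.mem_filter] at hq' ⊢
    exact ⟨hq'.1, hq'.2.2⟩
  have h4 : F.card * 2 ^ l ≤ ∑ B' ∈ F,
      (QQ.filter (fun q => bl R r q = B' ∧ Inc R δ T q)).card := by
    rw [← smul_eq_mul]
    refine Finset.card_nsmul_le_sum _ _ _ (fun B' hB' => ?_)
    exact (sh_counts QQ R r δ l k T B' (Finset.mem_filter.1 hB').2).1.1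
  calc 2 ^ (l + k) = 2 ^ k * 2 ^ l := by rw [pow_add, mul_comm]
    _ ≤ F.card * 2 ^ l := Nat.mul_le_mul_right _ h1
    _ ≤ _ := h4
    _ = _ := h2.symm
    _ ≤ _ := Finset.card_le_card h3

open Classical in
/-- the cubes of a tube in its shading class -/
theorem cubes_upper {m : ℕ} (QQ : Finset (Zi m)) (R r δ : ℝ) (l k : ℕ) (T : Pk m) :
    (QQ.filter (fun q => Inc R δ T q ∧ Sh QQ R r δ l k T (bl R r q))).card ≤
      4 * 2 ^ (l + k) := by
  set F := (QQ.image (bl R r)).filter (fun B' => Sh QQ R r δ l k T B') with hF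
  have h1 : F.card ≤ 2 ^ (k + 1) := by
    rcases Finset.eq_empty_or_nonempty F with h0 | ⟨B', hB'⟩
    · rw [h0]; simp
    · exact (sh_counts QQ R r δ l k T B' (Finset.mem_filter.1 hB').2).2.2.le
  have h2 : QQ.filter (fun q => Inc R δ T q ∧ Sh QQ R r δ l k T (bl R r q)) ⊆
      F.biUnion (fun B' => QQ.filter (fun q => bl R r q = B' ∧ Inc R δ T q)) := by
    intro q hq
    rw [Finset.mem_filter] at hq
    refine Finset.mem_biUnion.2 ⟨bl R r q, ?_, ?_⟩
    · rw [hF, Finset.mem_filter]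
      exact ⟨Finset.mem_image_of_mem _ hq.1, hq.2.2⟩
    · rw [Finset.mem_filter]
      exact ⟨hq.1, rfl, hq.2.1⟩
  calc (QQ.filter (fun q => Inc R δ T q ∧ Sh QQ R r δ l k T (bl R r q))).card
      ≤ (F.biUnion (fun B' => QQ.filter (fun q => bl R r q = B' ∧ Inc R δ T q))).card :=
        Finset.card_le_card h2
    _ ≤ ∑ B' ∈ F, (QQ.filter (fun q => bl R r q = B' ∧ Inc R δ T q)).card :=
        Finset.card_biUnion_le
    _ ≤ F.card • 2 ^ (l + 1) := by
        refine Finset.sum_le_card_nsmul _ _ _ (fun B' hB' => ?_)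
        exact (sh_counts QQ R r δ l k T B' (Finset.mem_filter.1 hB').2).1.2.le
    _ = F.card * 2 ^ (l + 1) := smul_eq_mul _ _
    _ ≤ 2 ^ (k + 1) * 2 ^ (l + 1) := Nat.mul_le_mul_right _ h1
    _ = 4 * 2 ^ (l + k) := by ring

open Classical in
/-- double counting -/
theorem dbl {α β : Type} (TT : Finset α) (Q : Finset β) (r : α → β → Prop) (M D : ℝ)
    (h1 : ∀ q ∈ Q, M ≤ ((TT.filter (fun t => r t q)).card : ℝ))
    (h2 : ∀ t ∈ TT, ((Q.filter (fun q => r t q)).card : ℝ) ≤ D) :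
    (Q.card : ℝ) * M ≤ TT.card * D := by
  have e1 : ∑ q ∈ Q, ((TT.filter (fun t => r t q)).card : ℝ) =
      ∑ t ∈ TT, ((Q.filter (fun q => r t q)).card : ℝ) := by
    simp only [Finset.card_filter, Nat.cast_sum]
    rw [Finset.sum_comm]
  calc (Q.card : ℝ) * M = Q.card • M := (nsmul_eq_mul _ _).symm
    _ ≤ ∑ q ∈ Q, ((TT.filter (fun t => r t q)).card : ℝ) := Finset.card_nsmul_le_sum _ _ _ h1
    _ = ∑ t ∈ TT, ((Q.filter (fun q => r t q)).card : ℝ) := e1
    _ ≤ TT.card • D := Finset.sum_le_card_nsmul _ _ _ h2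
    _ = TT.card * D := nsmul_eq_mul _ _

end Pool.Agent.H54.HDS
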